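import Pool.Agent.H45Z.SchemeProof

set_option autoImplicit false

namespace Pool.Agent.Results.MP_44674b_co.AMultipartite

open Pool.Agent.H45Z.Scheme

/-- For `m, n ≥ 2` with `m ≠ n`, the 2-class scheme of the complete multipartite graph with `m`
parts of size `n` is exactly triply regular and not formally self-dual. -/
theorem result (m n : ℕ) (hm : 2 ≤ m) (hn : 2 ≤ n) (hmn : m ≠ n) :
    ∃ S : SymScheme (Fin m × Fin n) 2,
      (∀ x y, S.rel x y = 2 ↔ x.1 ≠ y.1) ∧ TriplyRegular S ∧ DuallyTriplyRegular S ∧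
      (∃ E P Q, IsEigen S 1 E P Q) ∧ ¬ FormallySelfDual S :=
  main m n hm hn hmn

end Pool.Agent.Results.MP_44674b_co.AMultipartite
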